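import Mathlib

/-!
# Vertex removal and the fixed clique property

There are a graph `G` on 9 vertices and a vertex `v` such that the subgraphs induced on
`N(v) \ {v}` and on `V \ {v}` have the fixed clique property, while `G` does not.

The subgraph `G - v` is a triangulated Moebius band with 8 vertices (seven of them on the
boundary); all of its simplicial endomorphisms fix a clique. `G` retracts onto the square of the
7-cycle, which has a rotation.
-/

set_option linter.unusedVariables false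

namespace Pool.Agent.Results.MP_e83c66_co.MoebiusBand

variable {V : Type*}

/-- Simplicial endomorphisms of a graph. -/
def IsSimplicial (G : SimpleGraph V) (f : V → V) : Prop :=
  ∀ x y, G.Adj x y → f x = f y ∨ G.Adj (f x) (f y)

/-- The fixed clique property: every simplicial endomorphism `f` fixes some nonempty clique `C`
in the sense `f[C] = C`. -/
def FixedCliqueProperty (G : SimpleGraph V) : Prop :=
  ∀ f : V → V, IsSimplicial G f → ∃ C : Set V, C.Nonempty ∧ G.IsClique C ∧ f '' C = C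

/-- The graph. Vertices `0, …, 6` form the square of a 7-cycle without the edge `{0, 1}`, the
vertex `7` is adjacent to `6, 0, 1, 2` and the vertex `8` to `5, 6, 0, 1, 2, 7`. -/
def X : SimpleGraph (Fin 9) where
  Adj i j := Nat.testBit 1093890548608328610585060 (9 * i.val + j.val) = true
  symm := ⟨by decide⟩
  loopless := ⟨by decide⟩

instance : DecidableRel X.Adj := fun i j =>
  inferInstanceAs (Decidable (Nat.testBit 1093890548608328610585060 (9 * i.val + j.val) = true))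

/-- There is a fixed vertex, a swapped edge or a rotated triangle inside `P`. -/
def Fixes (P : Fin 9 → Prop) (F : Fin 9 → Fin 9) : Prop :=
  (∃ i, P i ∧ F i = i) ∨
  (∃ i, P i ∧ ∃ j, P j ∧ X.Adj i j ∧ F i = j ∧ F j = i) ∨
  (∃ i, P i ∧ ∃ j, P j ∧ ∃ k, P k ∧ X.Adj i j ∧ X.Adj j k ∧ X.Adj i k ∧
    F i = j ∧ F j = k ∧ F k = i)

theorem not_fixes {P : Fin 9 → Prop} {F : Fin 9 → Fin 9} (h : ¬ Fixes P F) :
    (∀ i, P i → F i ≠ i) ∧
    (∀ i, P i → ∀ j, P j → X.Adj i j → ¬ (F i = j ∧ F j = i)) ∧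
    (∀ i, P i → ∀ j, P j → ∀ k, P k → X.Adj i j → X.Adj j k → X.Adj i k →
      ¬ (F i = j ∧ F j = k ∧ F k = i)) := by
  refine ⟨fun i hi e => h (Or.inl ⟨i, hi, e⟩), fun i hi j hj hij e =>
    h (Or.inr (Or.inl ⟨i, hi, j, hj, hij, e.1, e.2⟩)), fun i hi j hj k hk hij hjk hik e =>
    h (Or.inr (Or.inr ⟨i, hi, j, hj, k, hk, hij, hjk, hik, e.1, e.2.1, e.2.2⟩))⟩

/-- Local condition at vertex 0. -/
def restP0 (x0 : Fin 9) : Prop :=
  x0 ≠ 8 ∧ x0 ≠ 0

instance (x0 : Fin 9) : Decidable (restP0 x0) := by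
  unfold restP0
  infer_instance

/-- Local condition at vertex 1. -/
def restP1 (x0 x1 : Fin 9) : Prop :=
  x1 ≠ 8 ∧ x1 ≠ 1

instance (x0 x1 : Fin 9) : Decidable (restP1 x0 x1) := by
  unfold restP1
  infer_instance

/-- Local condition at vertex 2. -/
def restP2 (x0 x1 x2 : Fin 9) : Prop :=
  x2 ≠ 8 ∧ x2 ≠ 2 ∧
  (x0 = x2 ∨ X.Adj x0 x2) ∧
  ¬ (x0 = 2 ∧ x2 = 0) ∧
  (x1 = x2 ∨ X.Adj x1 x2) ∧
  ¬ (x1 = 2 ∧ x2 = 1)

instance (x0 x1 x2 : Fin 9) : Decidable (restP2 x0 x1 x2) := by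
  unfold restP2
  infer_instance

/-- Local condition at vertex 3. -/
def restP3 (x0 x1 x2 x3 : Fin 9) : Prop :=
  x3 ≠ 8 ∧ x3 ≠ 3 ∧
  (x1 = x3 ∨ X.Adj x1 x3) ∧
  ¬ (x1 = 3 ∧ x3 = 1) ∧
  (x2 = x3 ∨ X.Adj x2 x3) ∧
  ¬ (x2 = 3 ∧ x3 = 2) ∧
  ¬ (x1 = 2 ∧ x2 = 3 ∧ x3 = 1) ∧
  ¬ (x2 = 1 ∧ x1 = 3 ∧ x3 = 2)

instance (x0 x1 x2 x3 : Fin 9) : Decidable (restP3 x0 x1 x2 x3) := by
  unfold restP3
  infer_instance

/-- Local condition at vertex 4. -/
def restP4 (x0 x1 x2 x3 x4 : Fin 9) : Prop :=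
  x4 ≠ 8 ∧ x4 ≠ 4 ∧
  (x2 = x4 ∨ X.Adj x2 x4) ∧
  ¬ (x2 = 4 ∧ x4 = 2) ∧
  (x3 = x4 ∨ X.Adj x3 x4) ∧
  ¬ (x3 = 4 ∧ x4 = 3) ∧
  ¬ (x2 = 3 ∧ x3 = 4 ∧ x4 = 2) ∧
  ¬ (x3 = 2 ∧ x2 = 4 ∧ x4 = 3)

instance (x0 x1 x2 x3 x4 : Fin 9) : Decidable (restP4 x0 x1 x2 x3 x4) := by
  unfold restP4
  infer_instance

/-- Local condition at vertex 5. -/
def restP5 (x0 x1 x2 x3 x4 x5 : Fin 9) : Prop :=
  x5 ≠ 8 ∧ x5 ≠ 5 ∧
  (x0 = x5 ∨ X.Adj x0 x5) ∧
  ¬ (x0 = 5 ∧ x5 = 0) ∧
  (x3 = x5 ∨ X.Adj x3 x5) ∧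
  ¬ (x3 = 5 ∧ x5 = 3) ∧
  (x4 = x5 ∨ X.Adj x4 x5) ∧
  ¬ (x4 = 5 ∧ x5 = 4) ∧
  ¬ (x3 = 4 ∧ x4 = 5 ∧ x5 = 3) ∧
  ¬ (x4 = 3 ∧ x3 = 5 ∧ x5 = 4)

instance (x0 x1 x2 x3 x4 x5 : Fin 9) : Decidable (restP5 x0 x1 x2 x3 x4 x5) := by
  unfold restP5
  infer_instance

/-- Local condition at vertex 6. -/
def restP6 (x0 x1 x2 x3 x4 x5 x6 : Fin 9) : Prop :=
  x6 ≠ 8 ∧ x6 ≠ 6 ∧
  (x0 = x6 ∨ X.Adj x0 x6) ∧
  ¬ (x0 = 6 ∧ x6 = 0) ∧
  (x1 = x6 ∨ X.Adj x1 x6) ∧
  ¬ (x1 = 6 ∧ x6 = 1) ∧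
  (x4 = x6 ∨ X.Adj x4 x6) ∧
  ¬ (x4 = 6 ∧ x6 = 4) ∧
  (x5 = x6 ∨ X.Adj x5 x6) ∧
  ¬ (x5 = 6 ∧ x6 = 5) ∧
  ¬ (x0 = 5 ∧ x5 = 6 ∧ x6 = 0) ∧
  ¬ (x5 = 0 ∧ x0 = 6 ∧ x6 = 5) ∧
  ¬ (x4 = 5 ∧ x5 = 6 ∧ x6 = 4) ∧
  ¬ (x5 = 4 ∧ x4 = 6 ∧ x6 = 5)

instance (x0 x1 x2 x3 x4 x5 x6 : Fin 9) : Decidable (restP6 x0 x1 x2 x3 x4 x5 x6) := by
  unfold restP6
  infer_instance

/-- Local condition at vertex 7. -/
def restP7 (x0 x1 x2 x3 x4 x5 x6 x7 : Fin 9) : Prop :=
  x7 ≠ 8 ∧ x7 ≠ 7 ∧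
  (x0 = x7 ∨ X.Adj x0 x7) ∧
  ¬ (x0 = 7 ∧ x7 = 0) ∧
  (x1 = x7 ∨ X.Adj x1 x7) ∧
  ¬ (x1 = 7 ∧ x7 = 1) ∧
  (x2 = x7 ∨ X.Adj x2 x7) ∧
  ¬ (x2 = 7 ∧ x7 = 2) ∧
  (x6 = x7 ∨ X.Adj x6 x7) ∧
  ¬ (x6 = 7 ∧ x7 = 6) ∧
  ¬ (x0 = 2 ∧ x2 = 7 ∧ x7 = 0) ∧
  ¬ (x2 = 0 ∧ x0 = 7 ∧ x7 = 2) ∧
  ¬ (x1 = 2 ∧ x2 = 7 ∧ x7 = 1) ∧
  ¬ (x2 = 1 ∧ x1 = 7 ∧ x7 = 2) ∧
  ¬ (x0 = 6 ∧ x6 = 7 ∧ x7 = 0) ∧
  ¬ (x6 = 0 ∧ x0 = 7 ∧ x7 = 6) ∧
  ¬ (x1 = 6 ∧ x6 = 7 ∧ x7 = 1) ∧
  ¬ (x6 = 1 ∧ x1 = 7 ∧ x7 = 6)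

instance (x0 x1 x2 x3 x4 x5 x6 x7 : Fin 9) : Decidable (restP7 x0 x1 x2 x3 x4 x5 x6 x7) := by
  unfold restP7
  infer_instance

/-- No completion of the partial map. -/
def restK7 (x0 x1 x2 x3 x4 x5 x6 : Fin 9) : Prop :=
  ∀ x7 : Fin 9, restP7 x0 x1 x2 x3 x4 x5 x6 x7 → False

instance (x0 x1 x2 x3 x4 x5 x6 : Fin 9) : Decidable (restK7 x0 x1 x2 x3 x4 x5 x6) := by
  unfold restK7
  infer_instance

/-- No completion of the partial map. -/
def restK6 (x0 x1 x2 x3 x4 x5 : Fin 9) : Prop :=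
  ∀ x6 : Fin 9, restP6 x0 x1 x2 x3 x4 x5 x6 → restK7 x0 x1 x2 x3 x4 x5 x6

instance (x0 x1 x2 x3 x4 x5 : Fin 9) : Decidable (restK6 x0 x1 x2 x3 x4 x5) := by
  unfold restK6
  infer_instance

/-- No completion of the partial map. -/
def restK5 (x0 x1 x2 x3 x4 : Fin 9) : Prop :=
  ∀ x5 : Fin 9, restP5 x0 x1 x2 x3 x4 x5 → restK6 x0 x1 x2 x3 x4 x5

instance (x0 x1 x2 x3 x4 : Fin 9) : Decidable (restK5 x0 x1 x2 x3 x4) := by
  unfold restK5
  infer_instance

/-- No completion of the partial map. -/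
def restK4 (x0 x1 x2 x3 : Fin 9) : Prop :=
  ∀ x4 : Fin 9, restP4 x0 x1 x2 x3 x4 → restK5 x0 x1 x2 x3 x4

instance (x0 x1 x2 x3 : Fin 9) : Decidable (restK4 x0 x1 x2 x3) := by
  unfold restK4
  infer_instance

/-- No completion of the partial map. -/
def restK3 (x0 x1 x2 : Fin 9) : Prop :=
  ∀ x3 : Fin 9, restP3 x0 x1 x2 x3 → restK4 x0 x1 x2 x3

instance (x0 x1 x2 : Fin 9) : Decidable (restK3 x0 x1 x2) := by
  unfold restK3
  infer_instance

/-- No completion of the partial map. -/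
def restK2 (x0 x1 : Fin 9) : Prop :=
  ∀ x2 : Fin 9, restP2 x0 x1 x2 → restK3 x0 x1 x2

instance (x0 x1 : Fin 9) : Decidable (restK2 x0 x1) := by
  unfold restK2
  infer_instance

/-- No completion of the partial map. -/
def restK1 (x0 : Fin 9) : Prop :=
  ∀ x1 : Fin 9, restP1 x0 x1 → restK2 x0 x1

instance (x0 : Fin 9) : Decidable (restK1 x0) := by
  unfold restK1
  infer_instance

/-- No completion of the partial map. -/
def restK0 : Prop :=
  ∀ x0 : Fin 9, restP0  x0 → restK1  x0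

instance : Decidable (restK0 ) := by
  unfold restK0
  infer_instance


theorem rest_key : restK0 := by
  decide +kernel

theorem rest_fixed (F : Fin 9 → Fin 9) (hs : ∀ i : Fin 9, i ≠ 8 → F i ≠ 8)
    (hf : ∀ i : Fin 9, i ≠ 8 → ∀ j : Fin 9, j ≠ 8 → X.Adj i j → (F i = F j ∨ X.Adj (F i) (F j))) :
    Fixes (fun i => i ≠ 8) F := by
  by_contra hno
  obtain ⟨h1, h2, h3⟩ := not_fixes hno
  exact rest_key
    (F 0) ⟨hs 0 (by decide),
      h1 0 (by decide)⟩
    (F 1) ⟨hs 1 (by decide),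
      h1 1 (by decide)⟩
    (F 2) ⟨hs 2 (by decide),
      h1 2 (by decide),
      hf 0 (by decide) 2 (by decide) (by decide),
      h2 0 (by decide) 2 (by decide) (by decide),
      hf 1 (by decide) 2 (by decide) (by decide),
      h2 1 (by decide) 2 (by decide) (by decide)⟩
    (F 3) ⟨hs 3 (by decide),
      h1 3 (by decide),
      hf 1 (by decide) 3 (by decide) (by decide),
      h2 1 (by decide) 3 (by decide) (by decide),
      hf 2 (by decide) 3 (by decide) (by decide),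
      h2 2 (by decide) 3 (by decide) (by decide),
      h3 1 (by decide) 2 (by decide) 3 (by decide) (by decide) (by decide) (by decide),
      h3 2 (by decide) 1 (by decide) 3 (by decide) (by decide) (by decide) (by decide)⟩
    (F 4) ⟨hs 4 (by decide),
      h1 4 (by decide),
      hf 2 (by decide) 4 (by decide) (by decide),
      h2 2 (by decide) 4 (by decide) (by decide),
      hf 3 (by decide) 4 (by decide) (by decide),
      h2 3 (by decide) 4 (by decide) (by decide),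
      h3 2 (by decide) 3 (by decide) 4 (by decide) (by decide) (by decide) (by decide),
      h3 3 (by decide) 2 (by decide) 4 (by decide) (by decide) (by decide) (by decide)⟩
    (F 5) ⟨hs 5 (by decide),
      h1 5 (by decide),
      hf 0 (by decide) 5 (by decide) (by decide),
      h2 0 (by decide) 5 (by decide) (by decide),
      hf 3 (by decide) 5 (by decide) (by decide),
      h2 3 (by decide) 5 (by decide) (by decide),
      hf 4 (by decide) 5 (by decide) (by decide),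
      h2 4 (by decide) 5 (by decide) (by decide),
      h3 3 (by decide) 4 (by decide) 5 (by decide) (by decide) (by decide) (by decide),
      h3 4 (by decide) 3 (by decide) 5 (by decide) (by decide) (by decide) (by decide)⟩
    (F 6) ⟨hs 6 (by decide),
      h1 6 (by decide),
      hf 0 (by decide) 6 (by decide) (by decide),
      h2 0 (by decide) 6 (by decide) (by decide),
      hf 1 (by decide) 6 (by decide) (by decide),
      h2 1 (by decide) 6 (by decide) (by decide),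
      hf 4 (by decide) 6 (by decide) (by decide),
      h2 4 (by decide) 6 (by decide) (by decide),
      hf 5 (by decide) 6 (by decide) (by decide),
      h2 5 (by decide) 6 (by decide) (by decide),
      h3 0 (by decide) 5 (by decide) 6 (by decide) (by decide) (by decide) (by decide),
      h3 5 (by decide) 0 (by decide) 6 (by decide) (by decide) (by decide) (by decide),
      h3 4 (by decide) 5 (by decide) 6 (by decide) (by decide) (by decide) (by decide),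
      h3 5 (by decide) 4 (by decide) 6 (by decide) (by decide) (by decide) (by decide)⟩
    (F 7) ⟨hs 7 (by decide),
      h1 7 (by decide),
      hf 0 (by decide) 7 (by decide) (by decide),
      h2 0 (by decide) 7 (by decide) (by decide),
      hf 1 (by decide) 7 (by decide) (by decide),
      h2 1 (by decide) 7 (by decide) (by decide),
      hf 2 (by decide) 7 (by decide) (by decide),
      h2 2 (by decide) 7 (by decide) (by decide),
      hf 6 (by decide) 7 (by decide) (by decide),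
      h2 6 (by decide) 7 (by decide) (by decide),
      h3 0 (by decide) 2 (by decide) 7 (by decide) (by decide) (by decide) (by decide),
      h3 2 (by decide) 0 (by decide) 7 (by decide) (by decide) (by decide) (by decide),
      h3 1 (by decide) 2 (by decide) 7 (by decide) (by decide) (by decide) (by decide),
      h3 2 (by decide) 1 (by decide) 7 (by decide) (by decide) (by decide) (by decide),
      h3 0 (by decide) 6 (by decide) 7 (by decide) (by decide) (by decide) (by decide),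
      h3 6 (by decide) 0 (by decide) 7 (by decide) (by decide) (by decide) (by decide),
      h3 1 (by decide) 6 (by decide) 7 (by decide) (by decide) (by decide) (by decide),
      h3 6 (by decide) 1 (by decide) 7 (by decide) (by decide) (by decide) (by decide)⟩

/-- Local condition at vertex 5. -/
def linkP0 (x5 : Fin 9) : Prop :=
  X.Adj 8 x5 ∧ x5 ≠ 5

instance (x5 : Fin 9) : Decidable (linkP0 x5) := by
  unfold linkP0
  infer_instance

/-- Local condition at vertex 6. -/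
def linkP1 (x5 x6 : Fin 9) : Prop :=
  X.Adj 8 x6 ∧ x6 ≠ 6 ∧
  (x5 = x6 ∨ X.Adj x5 x6) ∧
  ¬ (x5 = 6 ∧ x6 = 5)

instance (x5 x6 : Fin 9) : Decidable (linkP1 x5 x6) := by
  unfold linkP1
  infer_instance

/-- Local condition at vertex 0. -/
def linkP2 (x5 x6 x0 : Fin 9) : Prop :=
  X.Adj 8 x0 ∧ x0 ≠ 0 ∧
  (x5 = x0 ∨ X.Adj x5 x0) ∧
  ¬ (x5 = 0 ∧ x0 = 5) ∧
  (x6 = x0 ∨ X.Adj x6 x0) ∧
  ¬ (x6 = 0 ∧ x0 = 6) ∧
  ¬ (x5 = 6 ∧ x6 = 0 ∧ x0 = 5) ∧
  ¬ (x6 = 5 ∧ x5 = 0 ∧ x0 = 6)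

instance (x5 x6 x0 : Fin 9) : Decidable (linkP2 x5 x6 x0) := by
  unfold linkP2
  infer_instance

/-- Local condition at vertex 7. -/
def linkP3 (x5 x6 x0 x7 : Fin 9) : Prop :=
  X.Adj 8 x7 ∧ x7 ≠ 7 ∧
  (x6 = x7 ∨ X.Adj x6 x7) ∧
  ¬ (x6 = 7 ∧ x7 = 6) ∧
  (x0 = x7 ∨ X.Adj x0 x7) ∧
  ¬ (x0 = 7 ∧ x7 = 0) ∧
  ¬ (x6 = 0 ∧ x0 = 7 ∧ x7 = 6) ∧
  ¬ (x0 = 6 ∧ x6 = 7 ∧ x7 = 0)

instance (x5 x6 x0 x7 : Fin 9) : Decidable (linkP3 x5 x6 x0 x7) := by
  unfold linkP3
  infer_instance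

/-- Local condition at vertex 1. -/
def linkP4 (x5 x6 x0 x7 x1 : Fin 9) : Prop :=
  X.Adj 8 x1 ∧ x1 ≠ 1 ∧
  (x6 = x1 ∨ X.Adj x6 x1) ∧
  ¬ (x6 = 1 ∧ x1 = 6) ∧
  (x7 = x1 ∨ X.Adj x7 x1) ∧
  ¬ (x7 = 1 ∧ x1 = 7) ∧
  ¬ (x6 = 7 ∧ x7 = 1 ∧ x1 = 6) ∧
  ¬ (x7 = 6 ∧ x6 = 1 ∧ x1 = 7)

instance (x5 x6 x0 x7 x1 : Fin 9) : Decidable (linkP4 x5 x6 x0 x7 x1) := by
  unfold linkP4
  infer_instance

/-- Local condition at vertex 2. -/
def linkP5 (x5 x6 x0 x7 x1 x2 : Fin 9) : Prop :=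
  X.Adj 8 x2 ∧ x2 ≠ 2 ∧
  (x0 = x2 ∨ X.Adj x0 x2) ∧
  ¬ (x0 = 2 ∧ x2 = 0) ∧
  (x7 = x2 ∨ X.Adj x7 x2) ∧
  ¬ (x7 = 2 ∧ x2 = 7) ∧
  (x1 = x2 ∨ X.Adj x1 x2) ∧
  ¬ (x1 = 2 ∧ x2 = 1) ∧
  ¬ (x0 = 7 ∧ x7 = 2 ∧ x2 = 0) ∧
  ¬ (x7 = 0 ∧ x0 = 2 ∧ x2 = 7) ∧
  ¬ (x7 = 1 ∧ x1 = 2 ∧ x2 = 7) ∧
  ¬ (x1 = 7 ∧ x7 = 2 ∧ x2 = 1)

instance (x5 x6 x0 x7 x1 x2 : Fin 9) : Decidable (linkP5 x5 x6 x0 x7 x1 x2) := by
  unfold linkP5
  infer_instance

/-- No completion of the partial map. -/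
def linkK5 (x5 x6 x0 x7 x1 : Fin 9) : Prop :=
  ∀ x2 : Fin 9, linkP5 x5 x6 x0 x7 x1 x2 → False

instance (x5 x6 x0 x7 x1 : Fin 9) : Decidable (linkK5 x5 x6 x0 x7 x1) := by
  unfold linkK5
  infer_instance

/-- No completion of the partial map. -/
def linkK4 (x5 x6 x0 x7 : Fin 9) : Prop :=
  ∀ x1 : Fin 9, linkP4 x5 x6 x0 x7 x1 → linkK5 x5 x6 x0 x7 x1

instance (x5 x6 x0 x7 : Fin 9) : Decidable (linkK4 x5 x6 x0 x7) := by
  unfold linkK4
  infer_instance

/-- No completion of the partial map. -/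
def linkK3 (x5 x6 x0 : Fin 9) : Prop :=
  ∀ x7 : Fin 9, linkP3 x5 x6 x0 x7 → linkK4 x5 x6 x0 x7

instance (x5 x6 x0 : Fin 9) : Decidable (linkK3 x5 x6 x0) := by
  unfold linkK3
  infer_instance

/-- No completion of the partial map. -/
def linkK2 (x5 x6 : Fin 9) : Prop :=
  ∀ x0 : Fin 9, linkP2 x5 x6 x0 → linkK3 x5 x6 x0

instance (x5 x6 : Fin 9) : Decidable (linkK2 x5 x6) := by
  unfold linkK2
  infer_instance

/-- No completion of the partial map. -/
def linkK1 (x5 : Fin 9) : Prop :=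
  ∀ x6 : Fin 9, linkP1 x5 x6 → linkK2 x5 x6

instance (x5 : Fin 9) : Decidable (linkK1 x5) := by
  unfold linkK1
  infer_instance

/-- No completion of the partial map. -/
def linkK0 : Prop :=
  ∀ x5 : Fin 9, linkP0  x5 → linkK1  x5

instance : Decidable (linkK0 ) := by
  unfold linkK0
  infer_instance

theorem link_key : linkK0 := by
  decide +kernel

theorem link_fixed (F : Fin 9 → Fin 9) (hs : ∀ i : Fin 9, X.Adj 8 i → X.Adj 8 (F i))
    (hf : ∀ i : Fin 9, X.Adj 8 i → ∀ j : Fin 9, X.Adj 8 j → X.Adj i j → (F i = F j ∨ X.Adj (F i) (F j))) :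
    Fixes (fun i => X.Adj 8 i) F := by
  by_contra hno
  obtain ⟨h1, h2, h3⟩ := not_fixes hno
  exact link_key
    (F 5) ⟨hs 5 (by decide),
      h1 5 (by decide)⟩
    (F 6) ⟨hs 6 (by decide),
      h1 6 (by decide),
      hf 5 (by decide) 6 (by decide) (by decide),
      h2 5 (by decide) 6 (by decide) (by decide)⟩
    (F 0) ⟨hs 0 (by decide),
      h1 0 (by decide),
      hf 5 (by decide) 0 (by decide) (by decide),
      h2 5 (by decide) 0 (by decide) (by decide),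
      hf 6 (by decide) 0 (by decide) (by decide),
      h2 6 (by decide) 0 (by decide) (by decide),
      h3 5 (by decide) 6 (by decide) 0 (by decide) (by decide) (by decide) (by decide),
      h3 6 (by decide) 5 (by decide) 0 (by decide) (by decide) (by decide) (by decide)⟩
    (F 7) ⟨hs 7 (by decide),
      h1 7 (by decide),
      hf 6 (by decide) 7 (by decide) (by decide),
      h2 6 (by decide) 7 (by decide) (by decide),
      hf 0 (by decide) 7 (by decide) (by decide),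
      h2 0 (by decide) 7 (by decide) (by decide),
      h3 6 (by decide) 0 (by decide) 7 (by decide) (by decide) (by decide) (by decide),
      h3 0 (by decide) 6 (by decide) 7 (by decide) (by decide) (by decide) (by decide)⟩
    (F 1) ⟨hs 1 (by decide),
      h1 1 (by decide),
      hf 6 (by decide) 1 (by decide) (by decide),
      h2 6 (by decide) 1 (by decide) (by decide),
      hf 7 (by decide) 1 (by decide) (by decide),
      h2 7 (by decide) 1 (by decide) (by decide),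
      h3 6 (by decide) 7 (by decide) 1 (by decide) (by decide) (by decide) (by decide),
      h3 7 (by decide) 6 (by decide) 1 (by decide) (by decide) (by decide) (by decide)⟩
    (F 2) ⟨hs 2 (by decide),
      h1 2 (by decide),
      hf 0 (by decide) 2 (by decide) (by decide),
      h2 0 (by decide) 2 (by decide) (by decide),
      hf 7 (by decide) 2 (by decide) (by decide),
      h2 7 (by decide) 2 (by decide) (by decide),
      hf 1 (by decide) 2 (by decide) (by decide),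
      h2 1 (by decide) 2 (by decide) (by decide),
      h3 0 (by decide) 7 (by decide) 2 (by decide) (by decide) (by decide) (by decide),
      h3 7 (by decide) 0 (by decide) 2 (by decide) (by decide) (by decide) (by decide),
      h3 7 (by decide) 1 (by decide) 2 (by decide) (by decide) (by decide) (by decide),
      h3 1 (by decide) 7 (by decide) 2 (by decide) (by decide) (by decide) (by decide)⟩

/-- From the combinatorial statement to the fixed clique property of an induced subgraph. -/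
theorem fcp_of_fixes (P : Fin 9 → Prop)
    (h : ∀ F : Fin 9 → Fin 9, (∀ i, P i → P (F i)) →
      (∀ i, P i → ∀ j, P j → X.Adj i j → (F i = F j ∨ X.Adj (F i) (F j))) → Fixes P F) :
    FixedCliqueProperty (X.induce {i | P i}) := by
  classical
  intro f hf
  obtain ⟨F, hF⟩ : ∃ F : Fin 9 → Fin 9, ∀ i (hi : P i), F i = (f ⟨i, hi⟩).1 := by
    refine ⟨fun i => if hi : P i then (f ⟨i, hi⟩).1 else i, fun i hi => ?_⟩
    simp only [dif_pos hi]
  have key := h F (fun i hi => by rw [hF i hi]; exact (f ⟨i, hi⟩).2) (by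
    intro i hi j hj hij
    rw [hF i hi, hF j hj]
    rcases hf ⟨i, hi⟩ ⟨j, hj⟩ hij with e | e
    · exact Or.inl (congrArg Subtype.val e)
    · exact Or.inr e)
  have tr : ∀ (i : Fin 9) (hi : P i) (j : Fin 9) (hj : P j), F i = j → f ⟨i, hi⟩ = ⟨j, hj⟩ := by
    intro i hi j hj e
    apply Subtype.ext
    rw [← hF i hi, e]
  rcases key with ⟨i, hi, e⟩ | ⟨i, hi, j, hj, hij, e1, e2⟩ |
    ⟨i, hi, j, hj, k, hk, hij, hjk, hik, e1, e2, e3⟩
  · refine ⟨{⟨i, hi⟩}, Set.singleton_nonempty _, by simp, ?_⟩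
    rw [Set.image_singleton, tr i hi i hi e]
  · refine ⟨{⟨i, hi⟩, ⟨j, hj⟩}, Set.insert_nonempty _ _, ?_, ?_⟩
    · rw [SimpleGraph.isClique_iff, Set.pairwise_pair]
      intro _
      exact ⟨hij, hij.symm⟩
    · rw [Set.image_pair, tr i hi j hj e1, tr j hj i hi e2, Set.pair_comm]
  · refine ⟨{⟨i, hi⟩, ⟨j, hj⟩, ⟨k, hk⟩}, Set.insert_nonempty _ _, ?_, ?_⟩
    · rw [SimpleGraph.isClique_iff]
      intro a ha b hb hab
      simp only [Set.mem_insert_iff, Set.mem_singleton_iff] at ha hb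
      rcases ha with rfl | rfl | rfl <;> rcases hb with rfl | rfl | rfl <;>
        first
          | exact absurd rfl hab
          | exact hij
          | exact hij.symm
          | exact hjk
          | exact hjk.symm
          | exact hik
          | exact hik.symm
    · rw [Set.image_insert_eq, Set.image_pair, tr i hi j hj e1, tr j hj k hk e2,
        tr k hk i hi e3]
      ext z
      simp only [Set.mem_insert_iff, Set.mem_singleton_iff]
      tauto

/-- The endomorphism without a fixed clique: retract onto the square of the 7-cycle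
`8, 1, 2, 3, 4, 5, 6` and rotate. -/
def rot : Fin 9 → Fin 9 := fun i => if i = 6 then 8 else if i = 7 ∨ i = 8 then 1 else i + 1

theorem rot_simplicial : IsSimplicial X rot := by
  unfold IsSimplicial
  decide

theorem not_fcp : ¬ FixedCliqueProperty X := by
  intro h
  obtain ⟨C, ⟨c, hc⟩, hC, hfix⟩ := h rot rot_simplicial
  have st : ∀ x ∈ C, rot x ∈ C := fun x hx => hfix ▸ Set.mem_image_of_mem rot hx
  have st7 : ∀ x ∈ C, rot^[7] x ∈ C := by
    intro x hx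
    have it : ∀ n, rot^[n] x ∈ C := by
      intro n
      induction n with
      | zero => exact hx
      | succ n ih => rw [Function.iterate_succ_apply']; exact st _ ih
    exact it 7
  have it : ∀ n, rot^[n] c ∈ C := by
    intro n
    induction n with
    | zero => exact hc
    | succ n ih => rw [Function.iterate_succ_apply']; exact st _ ih
  have d1 : ∀ c : Fin 9, ∃ n < 9, ∃ m < 9,
      rot^[n] c ≠ rot^[m] c ∧ ¬ X.Adj (rot^[n] c) (rot^[m] c) := by
    decide +kernel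
  obtain ⟨n, _, m, _, hne, hna⟩ := d1 c
  exact hna (hC (it n) (it m) hne)

/-- **Disproof.** There are a graph `G` on 9 vertices and a vertex `v` such that `G[N(v) \ {v}]`
and `G[V \ {v}]` have the fixed clique property, but `G` does not. -/
theorem result :
    ∃ (G : SimpleGraph (Fin 9)) (v : Fin 9),
      FixedCliqueProperty (G.induce {w | G.Adj v w}) ∧
      FixedCliqueProperty (G.induce {w | w ≠ v}) ∧
      ¬ FixedCliqueProperty G :=
  ⟨X, 8, fcp_of_fixes _ link_fixed, fcp_of_fixes _ rest_fixed, not_fcp⟩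

end Pool.Agent.Results.MP_e83c66_co.MoebiusBand
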